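import Mathlib

namespace Pool.Agent.Results.MP_071c0d_co.FirstFit
open Finset

/-- c is the First-Fit colouring of the edge sequence e. -/
def IsFirstFit {W : Type} {t : ℕ} (e : Fin t → Sym2 W) (c : Fin t → ℕ) : Prop :=
  ∀ i, IsLeast {x | 0 < x ∧ ∀ j, j < i → (∃ w, w ∈ e i ∧ w ∈ e j) → c j ≠ x} (c i)

/-- Builder can force a rainbow copy of H with t edges. -/
def BuilderWins {V : Type} (H : SimpleGraph V) (t : ℕ) : Prop :=
  ∃ (W : Type) (e : Fin t → Sym2 W) (c : Fin t → ℕ),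
    Function.Injective e ∧ (∀ i, ¬ (e i).IsDiag) ∧ IsFirstFit e c ∧
    ∃ (φ : V ↪ W) (g : H.edgeSet → Fin t),
      (∀ x, e (g x) = Sym2.map φ x.1) ∧ Function.Injective (fun x => c (g x))

lemma order {ι W : Type} [Fintype ι] (e : ι → Sym2 W) (c : ι → ℕ) (h0 : ∀ i, 0 < c i)
    (h1 : ∀ i j, i ≠ j → (∃ w, w ∈ e i ∧ w ∈ e j) → c j ≠ c i)
    (h2 : ∀ i x, 0 < x → x < c i → ∃ j, (∃ w, w ∈ e i ∧ w ∈ e j) ∧ c j = x) :
    ∃ σ : Fin (Fintype.card ι) ≃ ι, IsFirstFit (e ∘ σ) (c ∘ σ) := by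
  let τ := (Fintype.equivFin ι).symm
  have hm := Tuple.monotone_sort (c ∘ τ)
  refine ⟨(Tuple.sort (c ∘ τ)).trans τ, fun i => ⟨⟨h0 _, fun j hj hw => ?_⟩, ?_⟩⟩
  · exact h1 _ _ (fun e => hj.ne' (((Tuple.sort (c ∘ τ)).trans τ).injective e)) hw
  · rintro x ⟨hx, hx2⟩
    by_contra hlt
    obtain ⟨j, hw, hj⟩ := h2 _ x hx (not_le.mp hlt)
    obtain ⟨j', rfl⟩ := ((Tuple.sort (c ∘ τ)).trans τ).surjective j
    refine hx2 j' ?_ hw hj
    by_contra hh
    have := hm (not_lt.mp hh)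
    exact hlt (hj ▸ this)

lemma build {V : Type} [Fintype V] [DecidableEq V] (H : SimpleGraph V) [DecidableRel H.Adj]
    (C : Finset V) (a : H.edgeSet → V) (ha : ∀ x, a x ∈ C ∧ a x ∈ x.1) (r : V → ℤ) :
    ∃ t, BuilderWins H t ∧ t ≤ ∑ v ∈ C, (univ.filter (fun x => r (a x) ≤ r v)).card := by
  classical
  obtain ⟨P, hP⟩ : ∃ P : V → ℕ, ∀ v, P v = (univ.filter (fun x => r (a x) ≤ r v)).card :=
    ⟨_, fun _ => rfl⟩
  obtain ⟨col, c0, c1, c2⟩ : ∃ col : H.edgeSet → ℕ, (∀ x, 0 < col x) ∧ Function.Injective col ∧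
      ∀ x, col x ≤ P (a x) := by
    let key : H.edgeSet → ℤ ×ₗ ℕ := fun x => toLex (r (a x), (Fintype.equivFin _ x).val)
    have hkey : Function.Injective key := fun x y e =>
      (Fintype.equivFin _).injective (Fin.ext (congrArg (fun p => (ofLex p).2) e))
    have hlt : ∀ x y, key x < key y →
        (univ.filter (fun z => key z ≤ key x)).card < (univ.filter (fun z => key z ≤ key y)).card := by
      intro x y h
      apply card_lt_card
      refine ⟨fun z hz => mem_filter.mpr ⟨mem_univ _, (mem_filter.mp hz).2.trans h.le⟩, fun hh => ?_⟩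
      exact absurd (mem_filter.mp (hh (mem_filter.mpr ⟨mem_univ y, le_rfl⟩))).2 (not_le.mpr h)
    refine ⟨fun x => (univ.filter (fun z => key z ≤ key x)).card,
      fun x => card_pos.mpr ⟨x, by simp⟩, fun x y e => ?_, fun x => ?_⟩
    · rcases lt_trichotomy (key x) (key y) with h | h | h
      · exact absurd e (hlt _ _ h).ne
      · exact hkey h
      · exact absurd e (hlt _ _ h).ne'
    · rw [hP]
      refine card_le_card (fun z hz => mem_filter.mpr ⟨mem_univ _, ?_⟩)
      have := Prod.Lex.toLex_le_toLex.mp (mem_filter.mp hz).2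
      simp only at this
      omega
  obtain ⟨F, hF⟩ : ∃ F : V → Finset ℕ, ∀ v y, y ∈ F v ↔ (1 ≤ y ∧ y ≤ P v) ∧
      ∀ x : H.edgeSet, v ∈ x.1 → col x ≠ y :=
    ⟨fun v => (Icc 1 (P v)).filter (fun y => ∀ x : H.edgeSet, v ∈ x.1 → col x ≠ y),
      fun v y => by simp only [mem_filter, mem_Icc]⟩
  let Pd : Finset (Σ _ : V, ℕ) := C.sigma F
  let e : H.edgeSet ⊕ Pd → Sym2 (V ⊕ Pd) := Sum.elim (fun x => Sym2.map Sum.inl x.1)
    (fun p => s(Sum.inl p.1.1, Sum.inr p))
  let c : H.edgeSet ⊕ Pd → ℕ := Sum.elim col (fun p => p.1.2)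
  have hPd : ∀ p : Pd, p.1.1 ∈ C ∧ p.1.2 ∈ F p.1.1 := fun p => mem_sigma.mp p.2
  have reach : ∀ v ∈ C, ∀ y, 0 < y → y ≤ P v → ∃ j, Sum.inl v ∈ e j ∧ c j = y := by
    intro v hv y h0 h1
    by_cases h : y ∈ F v
    · exact ⟨Sum.inr ⟨⟨v, y⟩, mem_sigma.mpr ⟨hv, h⟩⟩, by simp [e], rfl⟩
    · rw [hF] at h
      push Not at h
      obtain ⟨x, hx, hx2⟩ := h ⟨h0, h1⟩
      exact ⟨Sum.inl x, Sym2.mem_map.mpr ⟨v, hx, rfl⟩, hx2⟩
  obtain ⟨σ, hσ⟩ := order e c
    (by
      rintro (x | p)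
      · exact c0 x
      · exact ((hF _ _).mp (hPd p).2).1.1)
    (by
      rintro (x | p) (y | q) hne ⟨w, h1, h2⟩
      · exact fun e => hne (congrArg Sum.inl (c1 e).symm)
      · obtain ⟨v, hv, rfl⟩ := Sym2.mem_map.mp h1
        have : v = q.1.1 := by simpa [e] using h2
        exact (((hF _ _).mp (hPd q).2).2 x (this ▸ hv)).symm
      · obtain ⟨v, hv, rfl⟩ := Sym2.mem_map.mp h2
        have : v = p.1.1 := by simpa [e] using h1
        exact ((hF _ _).mp (hPd p).2).2 y (this ▸ hv)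
      · intro hc
        apply hne
        have h3 : p.1.1 = q.1.1 := by
          simp only [e, Sum.elim_inr, Sym2.mem_iff] at h1 h2
          rcases h1 with rfl | rfl
          · simpa using h2
          · have : p = q := by simpa using h2
            rw [this]
        have h4 : q.1.2 = p.1.2 := hc
        congr 1
        exact Subtype.ext (Sigma.ext h3 (heq_of_eq h4.symm)))
    (by
      rintro (x | p) y h0 h1
      · obtain ⟨j, hj, hc⟩ := reach (a x) (ha x).1 y h0 (h1.le.trans (c2 x))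
        exact ⟨j, ⟨_, Sym2.mem_map.mpr ⟨a x, (ha x).2, rfl⟩, hj⟩, hc⟩
      · obtain ⟨j, hj, hc⟩ := reach p.1.1 (hPd p).1 y h0
          (h1.le.trans ((hF _ _).mp (hPd p).2).1.2)
        exact ⟨j, ⟨_, by simp [e], hj⟩, hc⟩)
  refine ⟨_, ⟨V ⊕ Pd, e ∘ σ, c ∘ σ, Function.Injective.comp ?_ σ.injective, fun i => ?_, hσ,
    ⟨Sum.inl, Sum.inl_injective⟩, fun x => σ.symm (Sum.inl x), fun x => by simp [e],
    fun x y h => c1 (by simpa [c] using h)⟩, ?_⟩
  · rintro (x | p) (y | q) h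
    · exact congrArg Sum.inl (Subtype.ext (Sym2.map.injective Sum.inl_injective h))
    · have : Sum.inr q ∈ e (Sum.inl x) := by rw [h]; simp [e]
      simp [e] at this
    · have : Sum.inr p ∈ e (Sum.inl y) := by rw [← h]; simp [e]
      simp [e] at this
    · have : Sum.inr p ∈ e (Sum.inr q) := by rw [← h]; simp [e]
      simpa [e] using this
  · simp only [Function.comp]
    rcases σ i with x | p
    · simp only [e, Sum.elim_inl]
      rw [Sym2.isDiag_map Sum.inl_injective]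
      exact H.not_isDiag_of_mem_edgeSet x.2
    · simp [e]
  · rw [Fintype.card_sum, Fintype.card_coe, card_sigma, ← card_univ,
      card_eq_sum_card_fiberwise (f := a) (t := C) (fun x _ => (ha x).1), ← sum_add_distrib]
    refine sum_le_sum (fun v _ => ?_)
    rw [← hP, ← card_image_of_injective _ c1, ← card_union_of_disjoint]
    · refine (card_le_card (t := Icc 1 (P v)) ?_).trans (by simp)
      intro y hy
      rcases mem_union.mp hy with hy | hy
      · obtain ⟨x, hx, rfl⟩ := mem_image.mp hy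
        exact mem_Icc.mpr ⟨c0 x, (mem_filter.mp hx).2 ▸ c2 x⟩
      · exact mem_Icc.mpr ((hF _ _).mp hy).1
    · rw [disjoint_left]
      intro y hy hy2
      obtain ⟨x, hx, rfl⟩ := mem_image.mp hy
      exact ((hF _ _).mp hy2).2 x ((mem_filter.mp hx).2 ▸ (ha x).2) rfl

theorem result (V : Type) [Finite V] (H : SimpleGraph V) (τ : ℕ) (hτ : H.vertexCoverNum = τ) :
    ∃ t, BuilderWins H t ∧ 2 * t ≤ (τ + 1) * H.edgeSet.ncard := by
  classical
  have := Fintype.ofFinite V
  obtain ⟨C0, h1, h2⟩ := H.vertexCoverNum_exists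
  obtain ⟨C, rfl⟩ := (Set.toFinite C0).exists_finset_coe
  have hC : C.card = τ := by
    rw [hτ, Set.encard_coe_eq_coe_finsetCard] at h1
    exact_mod_cast h1
  have h3 : ∀ x : H.edgeSet, ∃ v, v ∈ C ∧ v ∈ x.1 := by
    rintro ⟨x, hx⟩
    induction x using Sym2.ind with
    | _ u v =>
      rcases h2 hx with h | h
      · exact ⟨u, h, by simp⟩
      · exact ⟨v, h, by simp⟩
  choose a ha using h3
  let r : V → ℤ := fun v => (Fintype.equivFin V v).val
  have hr : ∀ u v, r u = r v → u = v := fun u v e =>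
    (Fintype.equivFin V).injective (Fin.ext (by simpa [r] using e))
  obtain ⟨t1, b1, l1⟩ := build H C a ha r
  obtain ⟨t2, b2, l2⟩ := build H C a ha (fun v => -r v)
  have hk : H.edgeSet.ncard = (univ : Finset H.edgeSet).card := by
    rw [card_univ, ← Set.toFinset_card, Set.ncard_eq_toFinset_card']
  have key : t1 + t2 ≤ (τ + 1) * H.edgeSet.ncard := by
    refine (add_le_add l1 l2).trans ?_
    rw [← sum_add_distrib, add_mul, one_mul, ← hC, ← smul_eq_mul, ← sum_const, hk]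
    conv_rhs => rw [card_eq_sum_card_fiberwise (f := a) (t := C) (fun x _ => (ha x).1)]
    rw [← card_eq_sum_card_fiberwise (f := a) (t := C) (fun x _ => (ha x).1)]
    nth_rewrite 2 [card_eq_sum_card_fiberwise (f := a) (t := C) (s := univ) (fun x _ => (ha x).1)]
    rw [← sum_add_distrib]
    refine sum_le_sum (fun v _ => ?_)
    rw [← card_union_add_card_inter]
    refine add_le_add (card_le_univ _) (card_le_card (fun x hx => ?_))
    simp only [mem_inter, mem_filter, mem_univ, true_and] at hx ⊢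
    exact hr _ _ (by omega)
  rcases le_total t1 t2 with h | h
  · exact ⟨t1, b1, by omega⟩
  · exact ⟨t2, b2, by omega⟩

end Pool.Agent.Results.MP_071c0d_co.FirstFit
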